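import Pool.Agent.H55.Refl1

set_option autoImplicit false

namespace Pool.Agent.Results.MP_c73427_an.SchwartzOf

open Pool.Agent.H84.FlcDefs Pool.Agent.H55.ReflDefs

theorem result (X : Type) [TopologicalSpace X] :
    @MultiReflexive (X →₀ ℝ) _ _ (freeTop X) → @Schwartz (X →₀ ℝ) _ _ (freeTop X) :=
  Pool.Agent.H55.Nuc.main2

end Pool.Agent.Results.MP_c73427_an.SchwartzOf
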